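import Pool.Agent.H99.SQ.Defs

set_option autoImplicit false

namespace Pool.Agent.H69.SQ.QB

open Finset Pool.Agent.H99.SQ

theorem pf_QB : T_QB := by
  intro Y
  have h1 : QQ (FF Y) = (∏ p ∈ FF Y, p) ^ 2 := by
    unfold QQ
    rw [Finset.prod_pow]
  have h2 : ∏ p ∈ FF Y, p ≤ primorial Y := by
    unfold primorial
    apply Finset.prod_le_prod_of_subset_of_one_le'
    · intro p hp
      unfold FF at hp
      rw [Finset.mem_filter] at hp ⊢
      exact ⟨hp.1, hp.2.1⟩
    · intro p hp _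
      rw [Finset.mem_filter] at hp
      exact hp.2.one_lt.le
  have h3 := primorial_le_four_pow Y
  rw [h1]
  calc (∏ p ∈ FF Y, p) ^ 2 ≤ (primorial Y) ^ 2 := Nat.pow_le_pow_left h2 2
    _ ≤ (4 ^ Y) ^ 2 := Nat.pow_le_pow_left h3 2
    _ = 16 ^ Y := by
      rw [← pow_mul, mul_comm, pow_mul]
      norm_num

end Pool.Agent.H69.SQ.QB
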