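import Pool.Agent.H99.SQ.Defs

set_option autoImplicit false

namespace Pool.Agent.H69.SQ.SQS

open Finset Pool.Agent.H99.SQ

/-- the telescoping term -/
noncomputable def g (j : ℕ) : ℝ := (1 : ℝ) / 4 * (1 / (j : ℝ) - 1 / ((j : ℝ) + 1))

theorem tel (J M : ℕ) (hJ : 1 ≤ J) (hM : J ≤ M) :
    ∑ j ∈ Finset.Ico J M, g j = 1 / 4 * (1 / J - 1 / M) := by
  induction M, hM using Nat.le_induction with
  | base => simp
  | succ n hn ih =>
      rw [Finset.sum_Ico_succ_top hn, ih]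
      unfold g
      push_cast
      ring

theorem pf_SQS : T_SQS := by
  intro F J hJ hF
  obtain ⟨M, hM⟩ : ∃ M, ∀ p ∈ F, p < M := ⟨F.sup id + 1, fun p hp =>
    Nat.lt_succ_of_le (Finset.le_sup (f := id) hp)⟩
  have hinj : Set.InjOn (fun p : ℕ => p / 2) F := by
    intro a ha b hb hab
    obtain ⟨x, rfl⟩ := (hF a ha).1
    obtain ⟨y, rfl⟩ := (hF b hb).1
    have : (2 * x + 1) / 2 = (2 * y + 1) / 2 := hab
    omega
  have h1 : ∑ p ∈ F, (1 : ℝ) / (p : ℝ) ^ 2 ≤
      ∑ p ∈ F, g (p / 2) := by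
    apply Finset.sum_le_sum
    intro p hp
    obtain ⟨⟨j, rfl⟩, h2⟩ := hF p hp
    have hj : (2 * j + 1) / 2 = j := by omega
    rw [hj]
    unfold g
    have hj1 : 1 ≤ j := by omega
    have hj2 : (0 : ℝ) < j := by exact_mod_cast hj1
    have e : (1 : ℝ) / 4 * (1 / (j : ℝ) - 1 / ((j : ℝ) + 1)) = 1 / (4 * j * (j + 1)) := by
      field_simp
      ring
    rw [e]
    push_cast
    apply one_div_le_one_div_of_le
    · positivity
    · nlinarith
  have h2 : ∑ p ∈ F, g (p / 2) = ∑ j ∈ F.image (fun p => p / 2), g j := by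
    rw [Finset.sum_image hinj]
  have h3 : ∑ j ∈ F.image (fun p => p / 2), g j ≤ ∑ j ∈ Finset.Ico J (max J M), g j := by
    apply Finset.sum_le_sum_of_subset_of_nonneg
    · intro j hj
      rw [Finset.mem_image] at hj
      obtain ⟨p, hp, rfl⟩ := hj
      obtain ⟨⟨k, hk⟩, h5⟩ := hF p hp
      have := hM p hp
      rw [Finset.mem_Ico]
      constructor
      · omega
      · apply lt_of_lt_of_le _ (le_max_right _ _)
        omega
    · intro j hj _
      rw [Finset.mem_Ico] at hj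
      have hj2 : (0 : ℝ) < j := by
        have : 0 < j := by omega
        exact_mod_cast this
      have : (1 : ℝ) / ((j : ℝ) + 1) ≤ 1 / j := by
        apply one_div_le_one_div_of_le hj2
        linarith
      unfold g
      linarith
  have h4 := tel J (max J M) hJ (le_max_left _ _)
  have h5 : (1 : ℝ) / 4 * (1 / J - 1 / ((max J M : ℕ) : ℝ)) ≤ 1 / (4 * J) := by
    have h6 : (0 : ℝ) ≤ 1 / ((max J M : ℕ) : ℝ) := by positivity
    have h7 : (1 : ℝ) / (4 * J) = 1 / 4 * (1 / J) := by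
      field_simp
    rw [h7]
    linarith
  calc ∑ p ∈ F, (1 : ℝ) / (p : ℝ) ^ 2 ≤ _ := h1
    _ = _ := h2
    _ ≤ _ := h3
    _ = _ := h4
    _ ≤ _ := h5

end Pool.Agent.H69.SQ.SQS
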